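import Mathlib

/-!
Project TU, package SATU: lemmas on lattices (helper1), copied from `Pool.Agent.P8H83.Unf`,
`Pool.Agent.P8H83.Trans` (helper83) and `Pool.Agent.Y449.MK.Good`.
-/

set_option autoImplicit false

open Set Filter Topology Metric MeasureTheory
open scoped ENNReal

namespace Pool.Agent.P8H1.TU

section
variable {W ι : Type} [Finite ι] [NormedAddCommGroup W] [NormedSpace ℝ W] [FiniteDimensional ℝ W]
  [MeasurableSpace W] [BorelSpace W] (μ : Measure W) [μ.IsAddHaarMeasure]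

theorem unfold_le (b : Module.Basis ι ℝ W) {f : W → ℝ≥0∞} (hf : Measurable f) {M : ℝ≥0∞}
    (h : ∀ x, ∑' l : Submodule.span ℤ (range b), f ((l : W) + x) ≤ M) :
    ∫⁻ x, f x ∂μ ≤ M * μ (ZSpan.fundamentalDomain b) := by
  have hd := ZSpan.isAddFundamentalDomain b μ
  have hinv : VAddInvariantMeasure (Submodule.span ℤ (range b)) W μ :=
    inferInstanceAs <| VAddInvariantMeasure (Submodule.span ℤ (range b)).toAddSubgroup W μ
  rw [hd.lintegral_eq_tsum'' f, ← lintegral_tsum]
  · calc ∫⁻ x in ZSpan.fundamentalDomain b, ∑' g : Submodule.span ℤ (range b), f (g +ᵥ x) ∂μ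
        ≤ ∫⁻ _ in ZSpan.fundamentalDomain b, M ∂μ := lintegral_mono fun x => h x
      _ = M * μ (ZSpan.fundamentalDomain b) := by
        rw [lintegral_const, Measure.restrict_apply_univ]
  · intro g
    exact (hf.comp (measurable_const_add (g : W))).aemeasurable

/-- a finite sum of indicators bounded by the cardinality of a finite set -/
theorem tsum_ind_le {α β δ : Type} (I : Finset β) (p : α → β → Prop) [∀ a b, Decidable (p a b)]
    (Φ : Finset δ) (F : α → β → δ) (hF : ∀ a, ∀ b ∈ I, p a b → F a b ∈ Φ)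
    (hinj : ∀ a, ∀ b ∈ I, ∀ a', ∀ b' ∈ I, p a b → p a' b' → F a b = F a' b' → a = a' ∧ b = b') :
    ∑' a : α, ∑ b ∈ I, (if p a b then (1 : ℝ≥0∞) else 0) ≤ (Φ.card : ℝ≥0∞) := by
  classical
  rw [ENNReal.tsum_eq_iSup_sum]
  refine iSup_le fun s => ?_
  have h1 : ∑ a ∈ s, ∑ b ∈ I, (if p a b then (1 : ℝ≥0∞) else 0) =
      (((s ×ˢ I).filter fun q => p q.1 q.2).card : ℝ≥0∞) := by
    rw [← Finset.sum_product', Finset.sum_ite, Finset.sum_const_zero, add_zero, Finset.sum_const,
      nsmul_eq_mul, mul_one]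
  rw [h1]
  have h2 : ((s ×ˢ I).filter fun q => p q.1 q.2).card ≤ Φ.card := by
    refine Finset.card_le_card_of_injOn (fun q => F q.1 q.2) ?_ ?_
    · intro q hq
      have hq' := Finset.mem_filter.1 hq
      exact hF _ _ (Finset.mem_product.1 hq'.1).2 hq'.2
    · intro q hq q' hq' he
      have h3 := Finset.mem_filter.1 hq
      have h4 := Finset.mem_filter.1 hq'
      have h5 := hinj _ _ (Finset.mem_product.1 h3.1).2 _ _ (Finset.mem_product.1 h4.1).2 h3.2 h4.2 he
      exact Prod.ext h5.1 h5.2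
  exact_mod_cast h2

end

section
variable {W : Type} [NormedAddCommGroup W] [NormedSpace ℝ W] [FiniteDimensional ℝ W]

/-- a spanning set contains a basis -/
theorem exists_basis_of_span {T : Set W} (hT : Submodule.span ℝ T = ⊤) :
    ∃ (b : Module.Basis (Fin (Module.finrank ℝ W)) ℝ W), ∀ i, b i ∈ T := by
  obtain ⟨s, hs, hspan, hli⟩ := exists_linearIndependent ℝ T
  rw [hT] at hspan
  have hfin : Fintype s := hli.setFinite.fintype
  let b0 : Module.Basis s ℝ W := Module.Basis.mk hli (by rw [Subtype.range_coe, hspan])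
  have hcard : Fintype.card s = Module.finrank ℝ W := (Module.finrank_eq_card_basis b0).symm
  let e : s ≃ Fin (Module.finrank ℝ W) := Fintype.equivFinOfCardEq hcard
  refine ⟨b0.reindex e, fun i => ?_⟩
  rw [Module.Basis.reindex_apply]
  have : b0 (e.symm i) = (e.symm i : W) := by
    simp [b0]
  rw [this]
  exact hs (e.symm i).2

/-- a linear map preserving a discrete spanning group does not contract volume -/
theorem one_le_det {P : W →ₗ[ℝ] W} (hP : LinearMap.det P ≠ 0) (T : AddSubgroup W)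
    (hT : Submodule.span ℝ (T : Set W) = ⊤) {r : ℝ} (hr : 0 < r)
    (hdisc : ∀ t ∈ T, ‖t‖ < r → t = 0) (hPT : ∀ t ∈ T, P t ∈ T) :
    1 ≤ |LinearMap.det P| := by
  classical
  letI : MeasurableSpace W := borel W
  haveI : BorelSpace W := ⟨rfl⟩
  let μ : Measure W := Measure.addHaar
  obtain ⟨b, hb⟩ := exists_basis_of_span hT
  have hLT : ∀ l ∈ Submodule.span ℤ (range b), l ∈ T := by
    intro l hl
    have h1 : Submodule.span ℤ (range b) ≤ AddSubgroup.toIntSubmodule T :=
      Submodule.span_le.2 (by rintro _ ⟨i, rfl⟩; exact hb i)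
    exact h1 hl
  have hPk : ∀ k : ℕ, ∀ t ∈ T, (P ^ k) t ∈ T := by
    intro k
    induction k with
    | zero => intro t ht; simpa using ht
    | succ k ih =>
      intro t ht
      rw [pow_succ']
      exact hPT _ (ih t ht)
  have hdk : ∀ k : ℕ, LinearMap.det (P ^ k) = LinearMap.det P ^ k := fun k => map_pow _ _ _
  have key : ∀ k : ℕ, ENNReal.ofReal |(LinearMap.det P ^ k)⁻¹| * μ (ball (0 : W) (r / 2)) ≤
      1 * μ (ZSpan.fundamentalDomain b) := by
    intro k
    have h1 : μ ((P ^ k) ⁻¹' ball (0 : W) (r / 2)) =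
        ENNReal.ofReal |(LinearMap.det P ^ k)⁻¹| * μ (ball (0 : W) (r / 2)) := by
      have := Measure.addHaar_preimage_linearMap μ (f := P ^ k)
        (by rw [hdk]; exact pow_ne_zero _ hP) (ball (0 : W) (r / 2))
      rw [hdk] at this
      exact this
    have hm : MeasurableSet ((P ^ k) ⁻¹' ball (0 : W) (r / 2)) :=
      (isOpen_ball.preimage (P ^ k).continuous_of_finiteDimensional).measurableSet
    rw [← h1, ← lintegral_indicator_one hm]
    refine unfold_le μ b (measurable_one.indicator hm) fun x => ?_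
    have h2 := tsum_ind_le (α := Submodule.span ℤ (range b)) (β := Unit) (δ := Unit) {()}
      (fun l _ => (l : W) + x ∈ (P ^ k) ⁻¹' ball (0 : W) (r / 2)) {()} (fun _ _ => ())
      (fun _ _ _ _ => Finset.mem_singleton_self _) (by
        intro l _ _ l' _ _ h3 h4 _
        refine ⟨?_, rfl⟩
        have h5 : ((l : W) - l') ∈ T := T.sub_mem (hLT _ l.2) (hLT _ l'.2)
        have h6 : (P ^ k) ((l : W) - l') = 0 := by
          apply hdisc _ (hPk k _ h5)
          have e1 : (P ^ k) ((l : W) - l') = (P ^ k) (l + x) - (P ^ k) (l' + x) := by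
            rw [← map_sub]; congr 1; abel
          rw [e1]
          have h7 : ‖(P ^ k) ((l : W) + x)‖ < r / 2 := by simpa using h3
          have h8 : ‖(P ^ k) ((l' : W) + x)‖ < r / 2 := by simpa using h4
          have := norm_sub_le ((P ^ k) ((l : W) + x)) ((P ^ k) (l' + x))
          linarith
        have h7 : Function.Injective (P ^ k) := by
          have h8 : LinearMap.det (P ^ k) ≠ 0 := by rw [hdk]; exact pow_ne_zero _ hP
          exact (LinearMap.equivOfDetNeZero _ h8).injective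
        have h8 : (l : W) - l' = 0 := h7 (by rw [h6, map_zero])
        exact Subtype.ext (sub_eq_zero.1 h8))
    simp only [Finset.sum_singleton, Finset.card_singleton, Nat.cast_one] at h2
    refine le_trans (le_of_eq ?_) h2
    refine tsum_congr fun l => ?_
    rw [indicator_apply]
    rfl
  by_contra hlt
  push Not at hlt
  have hpos : 0 < |LinearMap.det P| := abs_pos.2 hP
  have h1 : (1 : ℝ) < |LinearMap.det P|⁻¹ := (one_lt_inv₀ hpos).2 hlt
  have hfin : μ (ZSpan.fundamentalDomain b) < ∞ :=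
    (ZSpan.fundamentalDomain_isBounded b).measure_lt_top
  have hb0 : 0 < μ (ball (0 : W) (r / 2)) := measure_ball_pos μ _ (half_pos hr)
  have hb1 : μ (ball (0 : W) (r / 2)) < ∞ := measure_ball_lt_top
  obtain ⟨k, hk⟩ := pow_unbounded_of_one_lt
    ((μ (ZSpan.fundamentalDomain b)).toReal / (μ (ball (0 : W) (r / 2))).toReal) h1
  have h2 := ENNReal.toReal_mono (by rw [one_mul]; exact hfin.ne) (key k)
  rw [ENNReal.toReal_mul, one_mul, ENNReal.toReal_ofReal (abs_nonneg _), abs_inv, abs_pow,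
    ← inv_pow] at h2
  have h3 : 0 < (μ (ball (0 : W) (r / 2))).toReal := ENNReal.toReal_pos hb0.ne' hb1.ne
  rw [div_lt_iff₀ h3] at hk
  linarith

end

section
variable {W : Type} [NormedAddCommGroup W] [NormedSpace ℝ W] [FiniteDimensional ℝ W]
  [MeasurableSpace W] [BorelSpace W]

/-- packing in a torus -/
theorem pack (μ : Measure W) [μ.IsAddHaarMeasure] (L : AddSubgroup W)
    (hL : Submodule.span ℝ (L : Set W) = ⊤) {S : ℕ → Set W} (hmeas : ∀ j, MeasurableSet (S j))
    {c : ℝ≥0∞} (hc : c ≠ 0) (hvol : ∀ j, μ (S j) = c)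
    (hself : ∀ j, ∀ x ∈ S j, ∀ y ∈ S j, ∀ t ∈ L, t + x = y → t = 0)
    (hfin : ∀ i, {j | ∃ x ∈ S i, ∃ y ∈ S j, ∃ t ∈ L, t + x = y}.Finite) : False := by
  classical
  obtain ⟨b, hb⟩ := exists_basis_of_span hL
  have hLT : ∀ l ∈ Submodule.span ℤ (range b), l ∈ L := by
    intro l hl
    have h1 : Submodule.span ℤ (range b) ≤ AddSubgroup.toIntSubmodule L :=
      Submodule.span_le.2 (by rintro _ ⟨i, rfl⟩; exact hb i)
    exact h1 hl
  have hex : ∀ n : ℕ, ∃ s : Finset ℕ, s.card = n ∧ ∀ i ∈ s, ∀ j ∈ s, i ≠ j →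
      ∀ x ∈ S i, ∀ y ∈ S j, ∀ t ∈ L, t + x ≠ y := by
    intro n
    induction n with
    | zero => exact ⟨∅, rfl, by simp⟩
    | succ n ih =>
      obtain ⟨s, hs, hsp⟩ := ih
      have hbad : ((s : Set ℕ) ∪ ⋃ i ∈ s, {j | ∃ x ∈ S i, ∃ y ∈ S j, ∃ t ∈ L, t + x = y}).Finite :=
        s.finite_toSet.union (s.finite_toSet.biUnion fun i _ => hfin i)
      obtain ⟨j, hj⟩ := hbad.exists_notMem
      rw [mem_union, not_or] at hj
      obtain ⟨hj1, hj2⟩ := hj
      have hj3 : ∀ i ∈ s, ∀ x ∈ S i, ∀ y ∈ S j, ∀ t ∈ L, t + x ≠ y := by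
        intro i hi x hx y hy t ht he
        exact hj2 (mem_biUnion hi ⟨x, hx, y, hy, t, ht, he⟩)
      refine ⟨insert j s, by rw [Finset.card_insert_of_notMem hj1, hs], ?_⟩
      intro i hi k hk hik x hx y hy t ht he
      rw [Finset.mem_insert] at hi hk
      rcases hi with rfl | hi
      · rcases hk with rfl | hk
        · exact hik rfl
        · exact hj3 k hk y hy x hx (-t) (L.neg_mem ht) (by rw [← he]; abel)
      · rcases hk with rfl | hk
        · exact hj3 i hi x hx y hy t ht he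
        · exact hsp i hi k hk hik x hx y hy t ht he
  have hPfin : μ (ZSpan.fundamentalDomain b) < ∞ :=
    (ZSpan.fundamentalDomain_isBounded b).measure_lt_top
  obtain ⟨n, hn⟩ : ∃ n : ℕ, μ (ZSpan.fundamentalDomain b) < n * c := by
    obtain ⟨n, hn⟩ := ENNReal.exists_nat_mul_gt hc hPfin.ne
    exact ⟨n, hn⟩
  obtain ⟨s, hs, hsp⟩ := hex n
  have hdisj : (s : Set ℕ).PairwiseDisjoint S := by
    intro i hi j hj hij
    rw [Function.onFun, Set.disjoint_left]
    intro x hx hx'
    exact hsp i hi j hj hij x hx x hx' 0 L.zero_mem (zero_add x)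
  have hmu : μ (⋃ i ∈ s, S i) = n * c := by
    rw [measure_biUnion_finset hdisj fun i _ => hmeas i]
    rw [Finset.sum_congr rfl fun i _ => hvol i, Finset.sum_const, hs, nsmul_eq_mul]
  have hinv : VAddInvariantMeasure (Submodule.span ℤ (range b)) W μ :=
    inferInstanceAs <| VAddInvariantMeasure (Submodule.span ℤ (range b)).toAddSubgroup W μ
  obtain ⟨x, hx, y, hy, g, hg, hgxy⟩ := (ZSpan.isAddFundamentalDomain b μ).exists_ne_zero_vadd_eq
    (Finset.measurableSet_biUnion s fun i _ => hmeas i).nullMeasurableSet (by rw [hmu]; exact hn)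
  simp only [mem_iUnion] at hx hy
  obtain ⟨i, hi, hx⟩ := hx
  obtain ⟨j, hj, hy⟩ := hy
  have hgL : (g : W) ∈ L := hLT _ g.2
  have hgx : (g : W) + x = y := hgxy
  by_cases hij : i = j
  · subst hij
    have h0 := hself i x hx y hy _ hgL hgx
    exact hg (Subtype.ext h0)
  · exact hsp i hi j hj hij x hx y hy _ hgL hgx

end

section

theorem pigeon {α : Type} {T : Set α} (hT : T.Finite) {f : ℕ → α} (hf : ∀ k, f k ∈ T) :
    ∃ δ ∈ T, ∃ φ : ℕ → ℕ, StrictMono φ ∧ ∀ k, f (φ k) = δ := by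
  by_contra hcon
  push Not at hcon
  have h1 : ∀ δ ∈ T, ∀ᶠ k in atTop, f k ≠ δ := by
    intro δ hδ
    by_contra h
    have h2 : ∃ᶠ k in atTop, f k = δ := by
      rw [Filter.Frequently]
      exact h
    obtain ⟨φ, hφ, hφ2⟩ := extraction_of_frequently_atTop h2
    obtain ⟨k, hk⟩ := hcon δ hδ φ hφ
    exact hk (hφ2 k)
  have h2 : ∀ᶠ k in atTop, ∀ δ ∈ T, f k ≠ δ := (hT.eventually_all (l := atTop)).2 h1
  obtain ⟨k, hk⟩ := h2.exists
  exact hk _ (hf k) rfl


end

end Pool.Agent.P8H1.TU
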