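import Pool.Agent.P8H67.TU.Stm
import Pool.Agent.P8H1.TU.Lat

/-!
Project TU (helper67), package SATU (helper1): the domain of a closed affine manifold is invariant under
the flow of a normal unipotent subgroup.  Adapted from `Pool.Agent.P8H67.TD.g_sat`.
-/

set_option autoImplicit false

open Set Filter Topology Metric MeasureTheory
open scoped ENNReal

namespace Pool.Agent.P8H1.TU

open Pool.Agent.P8H67.TU

section
variable {E Γ : Type} [NormedAddCommGroup E] [NormedSpace ℝ E] [Group Γ]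
  {hol : Γ →* (E ≃ᵃ[ℝ] E)}

theorem hol_mul (a b : Γ) (p : E) : hol (a * b) p = hol a (hol b p) := by
  rw [map_mul]; rfl

theorem hol_one (p : E) : hol 1 p = p := by
  rw [map_one]; rfl

theorem hol_inv_left (a : Γ) (p : E) : hol a⁻¹ (hol a p) = p := by
  rw [← hol_mul, inv_mul_cancel, hol_one]

theorem hol_inv_right (a : Γ) (p : E) : hol a (hol a⁻¹ p) = p := by
  rw [← hol_mul, mul_inv_cancel, hol_one]

variable {N : Subgroup Γ} {d : ℕ} {Φ : (Fin d → ℝ) → E → E}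
  {θ : Γ →* ((Fin d → ℝ) ≃ₗ[ℝ] (Fin d → ℝ))}

theorem flow_neg (F : Flow E Γ hol N d Φ θ) (a : Fin d → ℝ) (p : E) : Φ (-a) (Φ a p) = p := by
  rw [← F.add, neg_add_cancel, F.zero]

theorem flow_neg' (F : Flow E Γ hol N d Φ θ) (a : Fin d → ℝ) (p : E) : Φ a (Φ (-a) p) = p := by
  rw [← F.add, add_neg_cancel, F.zero]

/-- `hol ν⁻¹` is the flow of `-a` if `hol ν` is the flow of `a` -/
theorem flow_inv (F : Flow E Γ hol N d Φ θ) {ν : Γ} {a : Fin d → ℝ} (h : ∀ p, hol ν p = Φ a p)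
    (p : E) : hol ν⁻¹ p = Φ (-a) p := by
  have h1 : hol ν (hol ν⁻¹ p) = hol ν (Φ (-a) p) := by
    rw [hol_inv_right, h, flow_neg' F]
  exact (hol ν).injective h1

/-- the lattice of `N` -/
def Lam (F : Flow E Γ hol N d Φ θ) : AddSubgroup (Fin d → ℝ) where
  carrier := {a | ∃ ν ∈ N, ∀ p, hol ν p = Φ a p}
  zero_mem' := ⟨1, N.one_mem, fun p => by rw [hol_one, F.zero]⟩
  add_mem' := by
    rintro a b ⟨ν, hν, ha⟩ ⟨μ, hμ, hb⟩
    exact ⟨ν * μ, N.mul_mem hν hμ, fun p => by rw [hol_mul, hb, ha, F.add]⟩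
  neg_mem' := by
    rintro a ⟨ν, hν, ha⟩
    exact ⟨ν⁻¹, N.inv_mem hν, fun p => flow_inv F ha p⟩

theorem mem_Lam (F : Flow E Γ hol N d Φ θ) {a : Fin d → ℝ} :
    a ∈ Lam F ↔ ∃ ν ∈ N, ∀ p, hol ν p = Φ a p := Iff.rfl

theorem span_Lam (F : Flow E Γ hol N d Φ θ) :
    Submodule.span ℝ (Lam F : Set (Fin d → ℝ)) = ⊤ := F.spn

theorem Lam_inv [N.Normal] (F : Flow E Γ hol N d Φ θ) (γ : Γ) {a : Fin d → ℝ} (ha : a ∈ Lam F) :
    θ γ a ∈ Lam F := by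
  obtain ⟨ν, hν, h⟩ := ha
  refine ⟨γ * ν * γ⁻¹, Subgroup.Normal.conj_mem inferInstance ν hν γ, fun p => ?_⟩
  rw [hol_mul, hol_mul, h, F.equi, hol_inv_right]

theorem th_inv_left (γ : Γ) (a : Fin d → ℝ) : θ γ⁻¹ (θ γ a) = a := by
  have h : θ γ⁻¹ * θ γ = 1 := by rw [← map_mul, inv_mul_cancel, map_one]
  exact congrArg (fun T : (Fin d → ℝ) ≃ₗ[ℝ] (Fin d → ℝ) => T a) h

theorem det_th [N.Normal] (F : Flow E Γ hol N d Φ θ) (hL : Latt E Γ hol N d Φ) (γ : Γ) :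
    |LinearMap.det (θ γ : (Fin d → ℝ) →ₗ[ℝ] (Fin d → ℝ))| = 1 := by
  obtain ⟨r, hr, hdisc⟩ := hL
  have hmul : ∀ γ : Γ, LinearMap.det (θ γ : (Fin d → ℝ) →ₗ[ℝ] (Fin d → ℝ)) *
      LinearMap.det (θ γ⁻¹ : (Fin d → ℝ) →ₗ[ℝ] (Fin d → ℝ)) = 1 := by
    intro γ
    rw [← map_mul]
    have h : ((θ γ : (Fin d → ℝ) →ₗ[ℝ] (Fin d → ℝ)) * (θ γ⁻¹ : (Fin d → ℝ) →ₗ[ℝ] (Fin d → ℝ))) = 1 := by
      refine LinearMap.ext fun a => ?_
      have := th_inv_left (θ := θ) γ⁻¹ a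
      rw [inv_inv] at this
      exact this
    rw [h, map_one]
  have key : ∀ γ : Γ, 1 ≤ |LinearMap.det (θ γ : (Fin d → ℝ) →ₗ[ℝ] (Fin d → ℝ))| := by
    intro γ
    refine one_le_det (left_ne_zero_of_mul_eq_one (hmul γ)) (Lam F) (span_Lam F) hr ?_ ?_
    · intro t ht htr
      exact hdisc t ht htr
    · intro t ht
      exact Lam_inv F γ ht
  have h1 := key γ
  have h2 := key γ⁻¹
  have h3 : |LinearMap.det (θ γ : (Fin d → ℝ) →ₗ[ℝ] (Fin d → ℝ))| *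
      |LinearMap.det (θ γ⁻¹ : (Fin d → ℝ) →ₗ[ℝ] (Fin d → ℝ))| = 1 := by
    rw [← abs_mul, hmul, abs_one]
  nlinarith

theorem flow_cont (F : Flow E Γ hol N d Φ θ) :
    Continuous (fun x : (Fin d → ℝ) × E => Φ x.1 x.2) := F.smooth.continuous

/-- a compact subset of the domain stays in it for small times -/
theorem tube (F : Flow E Γ hol N d Φ θ) {Ω K : Set E} (hΩ : IsOpen Ω) (hK : IsCompact K)
    (hKΩ : K ⊆ Ω) : ∃ r > 0, ∀ u : Fin d → ℝ, ‖u‖ ≤ r → ∀ c ∈ K, Φ u c ∈ Ω := by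
  have ho : IsOpen ((fun x : (Fin d → ℝ) × E => Φ x.1 x.2) ⁻¹' Ω) := hΩ.preimage (flow_cont F)
  have hsub : ({0} : Set (Fin d → ℝ)) ×ˢ K ⊆ (fun x : (Fin d → ℝ) × E => Φ x.1 x.2) ⁻¹' Ω := by
    rintro ⟨u, c⟩ ⟨hu, hc⟩
    have hu' : u = 0 := hu
    subst hu'
    show Φ 0 c ∈ Ω
    rw [F.zero]
    exact hKΩ hc
  obtain ⟨U, V, hU, -, h0U, hKV, hUV⟩ := generalized_tube_lemma isCompact_singleton hK ho hsub
  have h0 : (0 : Fin d → ℝ) ∈ U := h0U rfl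
  obtain ⟨r, hr, hrU⟩ := Metric.nhds_basis_closedBall.mem_iff.1 (hU.mem_nhds h0)
  refine ⟨r, hr, fun u hu c hc => ?_⟩
  have h1 : (u, c) ∈ U ×ˢ V := ⟨hrU (by simpa using hu), hKV hc⟩
  exact hUV h1

end

theorem satu : S_SATU := by
  intro E Γ _ _ _ _ hol N _ Ω d Φ θ D F hL v p hp
  classical
  by_contra hcon
  have hopen : IsOpen Ω := D.opn
  have hΦc := flow_cont F
  -- the first point outside
  obtain ⟨A, hA⟩ : ∃ A : Set ℝ, A = {s | 0 ≤ s ∧ Φ (s • v) p ∉ Ω} := ⟨_, rfl⟩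
  have hline : Continuous fun s : ℝ => Φ (s • v) p :=
    hΦc.comp ((continuous_id.smul continuous_const).prodMk continuous_const)
  have hcl : IsClosed A := by
    have h1 : A = Ici 0 ∩ ((fun s : ℝ => Φ (s • v) p) ⁻¹' Ω)ᶜ := by rw [hA]; rfl
    rw [h1]
    exact isClosed_Ici.inter (hopen.preimage hline).isClosed_compl
  have h1A : (1 : ℝ) ∈ A := by
    rw [hA]
    exact ⟨zero_le_one, by rwa [one_smul]⟩
  have hbd : BddBelow A := ⟨0, fun s hs => by rw [hA] at hs; exact hs.1⟩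
  have hs := hcl.csInf_mem ⟨1, h1A⟩ hbd
  obtain ⟨s0, hs0⟩ : ∃ s0, s0 = sInf A := ⟨_, rfl⟩
  rw [← hs0] at hs
  have hsA : 0 ≤ s0 ∧ Φ (s0 • v) p ∉ Ω := by
    rw [hA] at hs
    exact hs
  have hpos : 0 < s0 := by
    rcases hsA.1.lt_or_eq with h | h
    · exact h
    · exfalso
      apply hsA.2
      rw [← h, zero_smul, F.zero]
      exact hp
  have hlt : ∀ s, 0 ≤ s → s < s0 → Φ (s • v) p ∈ Ω := by
    intro s h0 h1
    by_contra h2
    have h3 : s ∈ A := by rw [hA]; exact ⟨h0, h2⟩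
    have h4 := csInf_le hbd h3
    rw [← hs0] at h4
    linarith
  obtain ⟨y, hy⟩ : ∃ y, y = Φ (s0 • v) p := ⟨_, rfl⟩
  -- the sequence
  obtain ⟨a, ha⟩ : ∃ a : ℕ → ℝ, a = fun j : ℕ => s0 - s0 / ((j : ℝ) + 1) := ⟨_, rfl⟩
  have ha0 : ∀ j, 0 ≤ a j ∧ a j < s0 := by
    intro j
    have h1 : (0 : ℝ) < (j : ℝ) + 1 := by positivity
    rw [ha]
    constructor
    · have : s0 / ((j : ℝ) + 1) ≤ s0 := div_le_self hpos.le (by linarith [(Nat.cast_nonneg j : (0 : ℝ) ≤ j)])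
      show 0 ≤ s0 - s0 / ((j : ℝ) + 1)
      linarith
    · have : 0 < s0 / ((j : ℝ) + 1) := by positivity
      show s0 - s0 / ((j : ℝ) + 1) < s0
      linarith
  have hlim : Tendsto a atTop (𝓝 s0) := by
    rw [ha]
    have h1 : Tendsto (fun j : ℕ => s0 / ((j : ℝ) + 1)) atTop (𝓝 0) := by
      have h2 : Tendsto (fun j : ℕ => (j : ℝ) + 1) atTop atTop :=
        tendsto_atTop_add_const_right _ _ tendsto_natCast_atTop_atTop
      exact h2.const_div_atTop s0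
    simpa using tendsto_const_nhds.sub h1
  obtain ⟨xs, hxs⟩ : ∃ xs : ℕ → E, xs = fun j => Φ (a j • v) p := ⟨_, rfl⟩
  have hxsΩ : ∀ j, xs j ∈ Ω := by
    intro j
    rw [hxs]
    exact hlt _ (ha0 j).1 (ha0 j).2
  have hxslim : Tendsto xs atTop (𝓝 y) := by
    rw [hxs, hy]
    exact (hline.tendsto s0).comp hlim
  obtain ⟨C0, hC0r, hC0, hcc⟩ := D.cc
  choose γ c hcC hγc using fun j => hcc (xs j) (hxsΩ j)
  -- the compact neighbourhood
  obtain ⟨r1, hr1, hr1s⟩ := tube F hopen hC0 hC0r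
  obtain ⟨ρ, hρ, hdisc⟩ := id hL
  obtain ⟨r, hr⟩ : ∃ r, r = min r1 (ρ / 2) := ⟨_, rfl⟩
  have hr0 : 0 < r := by rw [hr]; exact lt_min hr1 (half_pos hρ)
  have hrr1 : r ≤ r1 := by rw [hr]; exact min_le_left _ _
  have hrρ : 2 * r ≤ ρ := by
    have : r ≤ ρ / 2 := by rw [hr]; exact min_le_right _ _
    linarith
  obtain ⟨C1, hC1d⟩ : ∃ C1 : Set E, C1 = (fun x : (Fin d → ℝ) × E => Φ x.1 x.2) ''
      (closedBall 0 r1 ×ˢ C0) := ⟨_, rfl⟩
  have hC1 : IsCompact C1 := by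
    rw [hC1d]
    exact ((isCompact_closedBall _ _).prod hC0).image hΦc
  have hC1Ω : C1 ⊆ Ω := by
    rw [hC1d]
    rintro _ ⟨⟨u, x⟩, ⟨hu, hx⟩, rfl⟩
    exact hr1s u (by simpa using hu) x hx
  have hF := D.pd C1 hC1Ω hC1
  have hmem1 : ∀ j, ∀ u : Fin d → ℝ, ‖u‖ < r → Φ u (c j) ∈ C1 := by
    intro j u hu
    rw [hC1d]
    exact ⟨(u, c j), ⟨by simpa using hu.le.trans hrr1, hcC j⟩, rfl⟩
  let μ : Measure (Fin d → ℝ) := volume
  obtain ⟨S, hS⟩ : ∃ S : ℕ → Set (Fin d → ℝ), S = fun j =>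
      (fun w => a j • v + w) '' ((θ (γ j) : (Fin d → ℝ) →ₗ[ℝ] (Fin d → ℝ)) '' ball 0 r) := ⟨_, rfl⟩
  have hSmem : ∀ j w, w ∈ S j → ∃ u : Fin d → ℝ, ‖u‖ < r ∧ w = a j • v + θ (γ j) u ∧
      Φ w p = hol (γ j) (Φ u (c j)) := by
    intro j w hw
    rw [hS] at hw
    obtain ⟨_, ⟨u, hu, rfl⟩, rfl⟩ := hw
    refine ⟨u, by simpa using hu, rfl, ?_⟩
    have h1 : Φ (a j • v) p = hol (γ j) (c j) := by
      rw [hγc j, hxs]
    show Φ (a j • v + θ (γ j) u) p = hol (γ j) (Φ u (c j))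
    rw [F.equi, ← h1, ← F.add, add_comm]
  refine pack μ (Lam F) (span_Lam F) (S := S) (c := μ (ball 0 r)) ?_ (measure_ball_pos μ _ hr0).ne' ?_
    ?_ ?_
  · intro j
    rw [hS]
    refine IsOpen.measurableSet ?_
    have h1 : IsOpen ((θ (γ j) : (Fin d → ℝ) →ₗ[ℝ] (Fin d → ℝ)) '' ball 0 r) := by
      have h2 : Function.Surjective (θ (γ j) : (Fin d → ℝ) →ₗ[ℝ] (Fin d → ℝ)) := (θ (γ j)).surjective
      have h3 := (LinearMap.toContinuousLinearMap (θ (γ j) : (Fin d → ℝ) →ₗ[ℝ] (Fin d → ℝ))).isOpenMap h2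
      exact h3 _ isOpen_ball
    exact (Homeomorph.addLeft (a j • v)).isOpenMap _ h1
  · intro j
    rw [hS]
    show μ ((fun w => a j • v + w) '' ((θ (γ j) : (Fin d → ℝ) →ₗ[ℝ] (Fin d → ℝ)) '' ball 0 r)) = _
    rw [image_add_left, measure_preimage_add, Measure.addHaar_image_linearMap, det_th F hL,
      ENNReal.ofReal_one, one_mul]
  · intro j x hx z hz t ht he
    obtain ⟨u, hu, hxu, -⟩ := hSmem j x hx
    obtain ⟨u', hu', hzu, -⟩ := hSmem j z hz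
    have h1 : t = θ (γ j) (u' - u) := by
      rw [map_sub]
      rw [hxu, hzu] at he
      have : t = a j • v + θ (γ j) u' - (a j • v + θ (γ j) u) := by
        rw [← he]; abel
      rw [this]; abel
    have h2 : θ (γ j)⁻¹ t = u' - u := by
      rw [h1, th_inv_left]
    have h3 : u' - u = 0 := by
      apply hdisc
      · rw [← h2]
        exact Lam_inv F _ ht
      · have := norm_sub_le u' u
        linarith
    rw [h1, h3, map_zero]
  · intro i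
    by_contra hinf
    have hinf' : {j | ∃ x ∈ S i, ∃ y ∈ S j, ∃ t ∈ Lam F, t + x = y}.Infinite := hinf
    obtain ⟨φ, hφ, hφm⟩ : ∃ φ : ℕ → ℕ, StrictMono φ ∧ ∀ k, φ k ∈
        {j | ∃ x ∈ S i, ∃ y ∈ S j, ∃ t ∈ Lam F, t + x = y} :=
      ⟨_, Nat.nth_strictMono hinf', fun k => Nat.nth_mem_of_infinite hinf' k⟩
    -- each index gives an element of the finite set
    have key : ∀ k, ∃ f ∈ {γ : Γ | ∃ c ∈ C1, hol γ c ∈ C1},
        ∃ (t : Fin d → ℝ) (τ : Γ), (∀ q, hol τ q = Φ t q) ∧ γ (φ k) = τ * (γ i * f) := by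
      intro k
      obtain ⟨x, hx, z, hz, t, ht, he⟩ := hφm k
      obtain ⟨u, hu, -, hxu⟩ := hSmem i x hx
      obtain ⟨u', hu', -, hzu⟩ := hSmem (φ k) z hz
      obtain ⟨τ, -, hτ⟩ := ht
      refine ⟨(γ i)⁻¹ * (τ⁻¹ * γ (φ k)), ⟨Φ u' (c (φ k)), hmem1 _ _ hu', ?_⟩, t, τ, hτ, by group⟩
      have h1 : hol ((γ i)⁻¹ * (τ⁻¹ * γ (φ k))) (Φ u' (c (φ k))) = Φ u (c i) := by
        rw [hol_mul, hol_mul, ← hzu]
        have h2 : Φ z p = hol τ (Φ x p) := by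
          rw [hτ, ← he, F.add]
        rw [h2, hol_inv_left, hxu, hol_inv_left]
      rw [h1]
      exact hmem1 _ _ hu
    choose f hfF t τ hτ hft using key
    obtain ⟨g, hgF, ψ, hψ, hψg⟩ := pigeon hF hfF
    -- the compact set `K0`
    obtain ⟨K0, hK0d⟩ : ∃ K0 : Set E, K0 = (fun q => hol (γ i * g) q) '' C0 := ⟨_, rfl⟩
    have hcontγ : ∀ h : Γ, Continuous fun q => hol h q := fun h =>
      AffineEquiv.continuous_of_finiteDimensional _
    have hK0 : IsCompact K0 := by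
      rw [hK0d]
      exact hC0.image (hcontγ _)
    have hK0Ω : K0 ⊆ Ω := by
      rw [hK0d]
      rintro _ ⟨q, hq, rfl⟩
      exact D.inv _ _ (hC0r hq)
    obtain ⟨r2, hr2, hr2s⟩ := tube F hopen hK0 hK0Ω
    obtain ⟨K1, hK1d⟩ : ∃ K1 : Set E, K1 = (fun x : (Fin d → ℝ) × E => Φ x.1 x.2) ''
        (closedBall 0 r2 ×ˢ K0) := ⟨_, rfl⟩
    have hK1 : IsCompact K1 := by
      rw [hK1d]
      exact ((isCompact_closedBall _ _).prod hK0).image hΦc
    have hK1Ω : K1 ⊆ Ω := by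
      rw [hK1d]
      rintro _ ⟨⟨u, x⟩, ⟨hu, hx⟩, rfl⟩
      exact hr2s u (by simpa using hu) x hx
    obtain ⟨m, hm⟩ : ∃ m : ℕ → ℕ, m = fun k => φ (ψ k) := ⟨_, rfl⟩
    have hmt : Tendsto m atTop atTop := by
      rw [hm]
      exact (hφ.comp hψ).tendsto_atTop
    -- `x_j = Φ t_j w_j`
    have hx1 : ∀ k, xs (m k) = hol (τ (ψ k)) (hol (γ i * g) (c (m k))) := by
      intro k
      have h1 : γ (m k) = τ (ψ k) * (γ i * g) := by
        rw [hm]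
        show γ (φ (ψ k)) = _
        rw [hft (ψ k), hψg k]
      rw [← hγc (m k), h1, hol_mul]
    have hw : ∀ k, hol (γ i * g) (c (m k)) = Φ (-t (ψ k)) (xs (m k)) := by
      intro k
      rw [hx1 k, hτ (ψ k), flow_neg F]
    have hsmall : ∀ᶠ k in atTop, ‖(s0 - a (m k)) • v‖ < r2 / 2 := by
      have h1 : Tendsto (fun k => ‖(s0 - a (m k)) • v‖) atTop (𝓝 0) := by
        have h2 : Tendsto (fun k => (s0 - a (m k)) • v) atTop (𝓝 ((s0 - s0) • v)) :=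
          (tendsto_const_nhds.sub (hlim.comp hmt)).smul_const v
        rw [sub_self, zero_smul] at h2
        have h3 := h2.norm
        rwa [norm_zero] at h3
      exact h1.eventually_lt_const (half_pos hr2)
    obtain ⟨k0, hk0⟩ := hsmall.exists_forall_of_atTop
    have hin : ∀ k ≥ k0, hol (τ (ψ k))⁻¹ (xs (m k0)) ∈ K1 := by
      intro k hk
      have h1 : xs (m k0) = Φ ((a (m k0) - a (m k)) • v) (xs (m k)) := by
        rw [hxs]
        show Φ (a (m k0) • v) p = Φ ((a (m k0) - a (m k)) • v) (Φ (a (m k) • v) p)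
        rw [← F.add, ← add_smul, sub_add_cancel]
      have h2 : hol (τ (ψ k))⁻¹ (xs (m k0)) =
          Φ ((a (m k0) - a (m k)) • v) (hol (γ i * g) (c (m k))) := by
        rw [flow_inv F (hτ (ψ k)), h1, hw k, ← F.add, ← F.add, add_comm]
      rw [h2, hK1d]
      refine ⟨((a (m k0) - a (m k)) • v, hol (γ i * g) (c (m k))), ⟨?_, ?_⟩, rfl⟩
      · have h3 : (a (m k0) - a (m k)) • v = (s0 - a (m k)) • v - (s0 - a (m k0)) • v := by
          rw [← sub_smul]; congr 1; ring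
        have h4 := hk0 k hk
        have h5 := hk0 k0 le_rfl
        have h6 := norm_sub_le ((s0 - a (m k)) • v) ((s0 - a (m k0)) • v)
        have h7 : ‖(a (m k0) - a (m k)) • v‖ ≤ r2 := by
          rw [h3]; linarith
        simpa using h7
      · rw [hK0d]
        exact ⟨_, hcC _, rfl⟩
    have hK2 : IsCompact ({xs (m k0)} ∪ K1) := isCompact_singleton.union hK1
    have hK2Ω : {xs (m k0)} ∪ K1 ⊆ Ω :=
      union_subset (singleton_subset_iff.2 (hxsΩ _)) hK1Ω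
    have hF2 := D.pd _ hK2Ω hK2
    have hmem2 : ∀ k, (τ (ψ (k + k0)))⁻¹ ∈
        {γ : Γ | ∃ p ∈ {xs (m k0)} ∪ K1, hol γ p ∈ {xs (m k0)} ∪ K1} := by
      intro k
      exact ⟨xs (m k0), Or.inl rfl, Or.inr (hin _ (Nat.le_add_left _ _))⟩
    obtain ⟨σ, -, ω, hω, hωσ⟩ := pigeon hF2 hmem2
    -- the points stay in a compact set
    obtain ⟨K3, hK3d⟩ : ∃ K3 : Set E, K3 = (fun q => hol σ⁻¹ (hol (γ i * g) q)) '' C0 := ⟨_, rfl⟩
    have hK3 : IsCompact K3 := by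
      rw [hK3d]
      exact hC0.image ((hcontγ _).comp (hcontγ _))
    have hK3Ω : K3 ⊆ Ω := by
      rw [hK3d]
      rintro _ ⟨q, hq, rfl⟩
      exact D.inv _ _ (D.inv _ _ (hC0r hq))
    have hx3 : ∀ k, xs (m (ω k + k0)) ∈ K3 := by
      intro k
      have h1 : τ (ψ (ω k + k0)) = σ⁻¹ := by
        have := hωσ k
        rw [← this, inv_inv]
      rw [hx1, h1, hK3d]
      exact ⟨_, hcC _, rfl⟩
    have hsub : Tendsto (fun k => m (ω k + k0)) atTop atTop :=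
      hmt.comp ((tendsto_add_atTop_nat k0).comp hω.tendsto_atTop)
    have hyK : y ∈ K3 := hK3.isClosed.mem_of_tendsto (hxslim.comp hsub)
      (Eventually.of_forall hx3)
    have hyΩ : y ∈ Ω := hK3Ω hyK
    rw [hy] at hyΩ
    exact hsA.2 hyΩ

end Pool.Agent.P8H1.TU
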